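import Mathlib
import Pool.Agent.R161.Bohr.Basic

/-!
MP_0fda35_co: Claim 4.2 (i), trigonometric polynomials.
-/

set_option autoImplicit false

namespace Pool.Agent.R339.Bohr

open Finset Pool.Agent.R161.Bohr

universe u

/-- product character -/
noncomputable def pch {G : Type u} [AddCommGroup G] {d : ℕ} (t : Fin d → AddChar G Circle) :
    AddChar (Fin d → G) Circle where
  toFun x := ∏ j, t j (x j)
  map_zero_eq_one' := by simp
  map_add_eq_mul' x y := by
    simp [AddChar.map_add_eq_mul, Finset.prod_mul_distrib]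

theorem pch_apply {G : Type u} [AddCommGroup G] {d : ℕ} (t : Fin d → AddChar G Circle)
    (x : Fin d → G) : pch t x = ∏ j, t j (x j) := rfl

theorem pch_single {G : Type u} [AddCommGroup G] {d : ℕ} (t : Fin d → AddChar G Circle)
    (j : Fin d) (y : G) : pch t (Pi.single j y) = t j y := by
  rw [pch_apply, Finset.prod_eq_single j]
  · rw [Pi.single_eq_same]
  · intro i _ hi
    rw [Pi.single_eq_of_ne hi, AddChar.map_zero_eq_one]
  · intro h
    exact absurd (Finset.mem_univ _) h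

theorem pch_injective {G : Type u} [AddCommGroup G] {d : ℕ} :
    Function.Injective (pch (G := G) (d := d)) := by
  intro s t h
  funext j
  ext y
  have := DFunLike.congr_fun h (Pi.single j y)
  rw [pch_single, pch_single] at this
  rw [this]

theorem count (hch : S_ch.{u}) {G : Type u} [AddCommGroup G] {d N : ℕ} (φ : Fin d → G →+ G)
    (j1 : Fin d) (h0 : (φ j1).range.index ≠ 0) (hN : (φ j1).range.index ≤ N)
    (ω : AddChar (Fin d → G) Circle) (Y : Finset (Fin d → AddChar G Circle))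
    (ξ : AddChar G Circle) (hY1 : ∀ t ∈ Y, t j1 = ξ)
    (hY2 : ∀ t ∈ Y, ∀ x, ∑ j, φ j (x j) = 0 → (ω * pch t) x = 1) : Y.card ≤ N := by
  classical
  rcases Y.eq_empty_or_nonempty with rfl | ⟨t0, ht0⟩
  · simp
  set Φ : (Fin d → G) →+ G := ∑ j, (φ j).comp (Pi.evalAddMonoidHom (fun _ => G) j) with hΦ
  have hΦa : ∀ y, Φ y = ∑ j, φ j (y j) := by
    intro y
    rw [hΦ, AddMonoidHom.finsetSum_apply]
    rfl
  set L : AddSubgroup (Fin d → G) := (φ j1).range.comap Φ with hL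
  have hLdvd : L.index ∣ (φ j1).range.index := by
    rw [hL, AddSubgroup.index_comap]
    exact AddSubgroup.relIndex_dvd_index_of_normal _ _
  have hL0 : L.index ≠ 0 := fun h => h0 (by rw [h] at hLdvd; exact zero_dvd_iff.1 hLdvd)
  have hLN : L.index ≤ N := (Nat.le_of_dvd (Nat.pos_of_ne_zero h0) hLdvd).trans hN
  obtain ⟨Ξ, hΞ1, hΞ2, -⟩ := hch (Fin d → G) L hL0
  refine le_trans ?_ (hΞ2.trans hLN)
  refine Finset.card_le_card_of_injOn (fun t => pch t * (pch t0)⁻¹) ?_ ?_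
  · intro t ht
    have ht : t ∈ Y := ht
    refine (hΞ1 _).2 fun l hl => ?_
    obtain ⟨z, hz⟩ : ∃ z, φ j1 z = Φ l := hl
    have e1 : (pch t * (pch t0)⁻¹) (Pi.single j1 z) = 1 := by
      rw [AddChar.mul_apply, AddChar.inv_apply', pch_single, pch_single, hY1 t ht, hY1 t0 ht0,
        mul_inv_cancel]
    have hs : ∑ j, φ j ((l - (Pi.single j1 z : Fin d → G)) j) = 0 := by
      rw [← hΦa (l - (Pi.single j1 z : Fin d → G)), map_sub, hΦa (Pi.single j1 z), Finset.sum_eq_single j1, Pi.single_eq_same, hz,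
        sub_self]
      · intro i _ hi
        rw [Pi.single_eq_of_ne hi, map_zero]
      · intro h
        exact absurd (Finset.mem_univ _) h
    have e2 : (pch t * (pch t0)⁻¹) (l - (Pi.single j1 z : Fin d → G)) = 1 := by
      have h1 := hY2 t ht _ hs
      have h2 := hY2 t0 ht0 _ hs
      rw [AddChar.mul_apply] at h1 h2
      rw [AddChar.mul_apply, AddChar.inv_apply']
      have h3 : pch t (l - (Pi.single j1 z : Fin d → G)) = pch t0 (l - (Pi.single j1 z : Fin d → G)) :=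
        mul_left_cancel (h1.trans h2.symm)
      rw [h3, mul_inv_cancel]
    have h4 : l = (l - (Pi.single j1 z : Fin d → G)) + Pi.single j1 z := by abel
    rw [h4, AddChar.map_add_eq_mul, e1, e2, one_mul]
  · intro s _ t _ h
    exact pch_injective (mul_right_cancel h)

theorem fiber_sum (hch : S_ch.{u}) {G : Type u} [AddCommGroup G] {d N : ℕ} (φ : Fin d → G →+ G)
    (hφ : IdxLe φ N) (ω : AddChar (Fin d → G) Circle)
    (Λ : Fin d → Finset (AddChar G Circle)) (X : Finset (Fin d → AddChar G Circle))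
    (hX1 : ∀ t ∈ X, ∀ j, t j ∈ Λ j)
    (hX2 : ∀ t ∈ X, ∀ x, ∑ j, φ j (x j) = 0 → (ω * pch t) x = 1) (j1 : Fin d)
    (c : AddChar G Circle → ℂ) (hc : ∑ ξ ∈ Λ j1, ‖c ξ‖ ^ 2 ≤ 1) :
    ∑ t ∈ X, ‖c (t j1)‖ ^ 2 ≤ N := by
  classical
  rw [← Finset.sum_fiberwise_of_maps_to (s := X) (t := Λ j1) (g := fun t => t j1)
    (fun t ht => hX1 t ht j1)]
  calc ∑ ξ ∈ Λ j1, ∑ t ∈ X.filter (fun t => t j1 = ξ), ‖c (t j1)‖ ^ 2
      ≤ ∑ ξ ∈ Λ j1, (N : ℝ) * ‖c ξ‖ ^ 2 := by
        refine Finset.sum_le_sum fun ξ _ => ?_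
        have h1 : ∑ t ∈ X.filter (fun t => t j1 = ξ), ‖c (t j1)‖ ^ 2 =
            ∑ _t ∈ X.filter (fun t => t j1 = ξ), ‖c ξ‖ ^ 2 :=
          Finset.sum_congr rfl fun t ht => by rw [(Finset.mem_filter.1 ht).2]
        rw [h1, Finset.sum_const, nsmul_eq_mul]
        refine mul_le_mul_of_nonneg_right ?_ (by positivity)
        exact_mod_cast count hch φ j1 (hφ j1).1 (hφ j1).2 ω _ ξ
          (fun t ht => (Finset.mem_filter.1 ht).2)
          (fun t ht => hX2 t (Finset.mem_filter.1 ht).1)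
    _ = (N : ℝ) * ∑ ξ ∈ Λ j1, ‖c ξ‖ ^ 2 := by rw [Finset.mul_sum]
    _ ≤ (N : ℝ) * 1 := mul_le_mul_of_nonneg_left hc (Nat.cast_nonneg _)
    _ = N := mul_one _

theorem s_c42i : S_ch.{u} → S_c42i.{u} := by
  classical
  intro hch G _ m hm d N φ hφ M hM j0 j1 j2 h01 h02 h12 ω Λ c ε hε hc0 hc
  set P := Fintype.piFinset Λ with hP
  have hmemP : ∀ t, t ∈ P ↔ ∀ j, t j ∈ Λ j := fun t => Fintype.mem_piFinset
  -- expansion
  have hexp : (fun x : Fin d → G => (ω x : ℂ) * ∏ j, trig (Λ j) (c j) (x j)) =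
      fun x => ∑ t ∈ P, (∏ j, c j (t j)) * ((ω * pch t) x : ℂ) := by
    funext x
    unfold trig
    rw [Finset.prod_univ_sum, Finset.mul_sum]
    refine Finset.sum_congr rfl fun t _ => ?_
    rw [Finset.prod_mul_distrib, char_mul, pch_apply]
    have : ((∏ j, t j (x j) : Circle) : ℂ) = ∏ j, (t j (x j) : ℂ) :=
      map_prod Circle.coeHom _ _
    rw [this]
    ring
  rw [hexp, M.map_sum P fun t _ => (Bdd.char _).cmul _]
  set X := P.filter (fun t => ∀ x, ∑ j, φ j (x j) = 0 → (ω * pch t) x = 1) with hX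
  have hX1 : ∀ t ∈ X, ∀ j, t j ∈ Λ j := fun t ht => (hmemP t).1 (Finset.mem_filter.1 ht).1
  have hX2 : ∀ t ∈ X, ∀ x, ∑ j, φ j (x j) = 0 → (ω * pch t) x = 1 :=
    fun t ht => (Finset.mem_filter.1 ht).2
  have hterm : ∀ t ∈ P, ‖M (fun x => (∏ j, c j (t j)) * ((ω * pch t) x : ℂ))‖ ≤
      if (∀ x, ∑ j, φ j (x j) = 0 → (ω * pch t) x = 1) then ∏ j, ‖c j (t j)‖ else 0 := by
    intro t _
    rw [M.map_cmul _ (Bdd.char _), norm_mul, norm_prod]
    rcases hM.char (ω * pch t) with ⟨h1, h2⟩ | ⟨h1, h2⟩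
    · rw [if_pos h1, h2, norm_one, mul_one]
    · rw [if_neg h1, h2, norm_zero, mul_zero]
  have hsum : ‖∑ t ∈ P, M (fun x => (∏ j, c j (t j)) * ((ω * pch t) x : ℂ))‖ ≤
      ∑ t ∈ X, ∏ j, ‖c j (t j)‖ := by
    refine (norm_sum_le _ _).trans ((Finset.sum_le_sum hterm).trans (le_of_eq ?_))
    rw [hX, Finset.sum_filter]
  refine hsum.trans ?_
  have hle1 : ∀ j, j ≠ j0 → ∀ ξ ∈ Λ j, ‖c j ξ‖ ≤ 1 := by
    intro j hj ξ hξ
    have h1 : ‖c j ξ‖ ^ 2 ≤ 1 :=
      (Finset.single_le_sum (f := fun ξ => ‖c j ξ‖ ^ 2) (fun _ _ => by positivity) hξ).trans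
        (hc j hj)
    exact (sq_le_one_iff₀ (norm_nonneg _)).1 h1
  have hprod : ∀ t ∈ X, ∏ j, ‖c j (t j)‖ ≤
      ε * ((‖c j1 (t j1)‖ ^ 2 + ‖c j2 (t j2)‖ ^ 2) / 2) := by
    intro t ht
    have h1 : ∏ j, ‖c j (t j)‖ ≤ ∏ j, ((if j = j0 then ε else 1) *
        (if j = j1 then ‖c j1 (t j1)‖ else 1) * (if j = j2 then ‖c j2 (t j2)‖ else 1)) := by
      refine Finset.prod_le_prod (fun _ _ => norm_nonneg _) fun j _ => ?_
      by_cases hj0 : j = j0
      · subst hj0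
        simp only [if_true, h01, h02, if_false, mul_one]
        exact hc0 _ (hX1 t ht _)
      by_cases hj1 : j = j1
      · subst hj1
        simp [hj0, h12]
      by_cases hj2 : j = j2
      · subst hj2
        simp [hj0, hj1]
      · simp only [hj0, hj1, hj2, if_false, mul_one]
        exact hle1 j hj0 _ (hX1 t ht _)
    have h2 : ∏ j, ((if j = j0 then ε else 1) *
        (if j = j1 then ‖c j1 (t j1)‖ else 1) * (if j = j2 then ‖c j2 (t j2)‖ else 1)) =
        ε * ‖c j1 (t j1)‖ * ‖c j2 (t j2)‖ := by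
      rw [Finset.prod_mul_distrib, Finset.prod_mul_distrib]
      simp
    rw [h2] at h1
    refine h1.trans ?_
    rw [mul_assoc]
    refine mul_le_mul_of_nonneg_left ?_ hε
    nlinarith [sq_nonneg (‖c j1 (t j1)‖ - ‖c j2 (t j2)‖)]
  refine (Finset.sum_le_sum hprod).trans ?_
  have f1 := fiber_sum hch φ hφ ω Λ X hX1 hX2 j1 (c j1) (hc j1 h01.symm)
  have f2 := fiber_sum hch φ hφ ω Λ X hX1 hX2 j2 (c j2) (hc j2 h02.symm)
  rw [← Finset.mul_sum, ← Finset.sum_div, Finset.sum_add_distrib, mul_comm (N : ℝ) ε]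
  refine mul_le_mul_of_nonneg_left ?_ hε
  linarith

end Pool.Agent.R339.Bohr
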