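import Mathlib
import Pool.Agent.R161.Bohr.Defs

/-!
MP_0fda35_co: characters trivial on a finite index subgroup; extension of characters.
-/

set_option autoImplicit false

namespace Pool.Agent.R339.Bohr

open Finset Pool.Agent.R161.Bohr

universe u

/-- roots in the circle -/
noncomputable def crt (z : Circle) (n : ℤ) : Circle := Circle.exp (Complex.arg (z : ℂ) / n)

theorem crt_zpow (z : Circle) {n : ℤ} (hn : n ≠ 0) : crt z n ^ n = z := by
  unfold crt
  rw [← Circle.exp_zsmul, zsmul_eq_mul]
  have h : (n : ℝ) * (Complex.arg (z : ℂ) / n) = Complex.arg (z : ℂ) := by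
    have : (n : ℝ) ≠ 0 := by exact_mod_cast hn
    field_simp
  rw [h, Circle.exp_arg]

noncomputable instance : DivisibleBy (Additive Circle) ℤ where
  div a n := Additive.ofMul (crt (Additive.toMul a) n)
  div_zero a := by
    simp [crt]
  div_cancel {n} a hn := by
    rw [← ofMul_zpow, crt_zpow _ hn, ofMul_toMul]

theorem s_chext : S_chext.{u} := by
  intro G _ L χ
  obtain ⟨h, hh⟩ := (Module.Baer.of_divisible (Additive Circle)).extension_property_addMonoidHom
    L.subtype (AddSubgroup.subtype_injective L) χ.toAddMonoidHom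
  refine ⟨AddChar.toAddMonoidHomEquiv.symm h, fun l => ?_⟩
  have := DFunLike.congr_fun hh l
  have h2 : h (l : G) = Additive.ofMul (χ l) := this
  show Additive.toMul (h (l : G)) = χ l
  rw [h2, toMul_ofMul]

theorem s_ch : S_ch.{u} := by
  classical
  intro G _ L hL
  haveI : L.FiniteIndex := ⟨hL⟩
  haveI : Finite (G ⧸ L) := inferInstance
  letI := Fintype.ofFinite (G ⧸ L)
  haveI : Finite (AddChar (G ⧸ L) Circle) :=
    Finite.of_equiv _ (AddChar.circleEquivComplex (α := G ⧸ L)).symm.toEquiv
  letI := Fintype.ofFinite (AddChar (G ⧸ L) Circle)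
  let F : AddChar (G ⧸ L) Circle → AddChar G Circle :=
    fun χ => χ.compAddMonoidHom (QuotientAddGroup.mk' L)
  refine ⟨Finset.univ.image F, ?_, ?_, ?_⟩
  · intro ξ
    simp only [Finset.mem_image, Finset.mem_univ, true_and]
    constructor
    · rintro ⟨χ, rfl⟩ l hl
      show χ (QuotientAddGroup.mk' L l) = 1
      have : QuotientAddGroup.mk' L l = 0 := by
        simpa using hl
      rw [this, AddChar.map_zero_eq_one]
    · intro h
      refine ⟨AddChar.toAddMonoidHomEquiv.symm
        (QuotientAddGroup.lift L ξ.toAddMonoidHom ?_), ?_⟩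
      · intro l hl
        show Additive.ofMul (ξ l) = 0
        rw [h l hl]; rfl
      · ext x
        rfl
  · refine Finset.card_image_le.trans ?_
    rw [Finset.card_univ]
    have h1 : Fintype.card (AddChar (G ⧸ L) Circle) = Fintype.card (AddChar (G ⧸ L) ℂ) :=
      Fintype.card_congr (AddChar.circleEquivComplex (α := G ⧸ L)).toEquiv
    rw [h1, AddChar.card_eq, AddSubgroup.index, Nat.card_eq_fintype_card]
  · intro g hg
    have hg' : (QuotientAddGroup.mk' L g) ≠ 0 := by
      simpa using hg
    obtain ⟨ψ, hψ⟩ := AddChar.exists_apply_ne_zero.2 hg'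
    refine ⟨F (AddChar.circleEquivComplex.symm ψ), Finset.mem_image_of_mem _ (Finset.mem_univ _),
      ?_⟩
    intro h
    apply hψ
    have h2 : (AddChar.circleEquivComplex.symm ψ) (QuotientAddGroup.mk' L g) = 1 := h
    have h3 := congrArg (fun z : Circle => (z : ℂ)) h2
    exact h3

end Pool.Agent.R339.Bohr
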