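import Pool.Agent.R161.Bohr.Defs

/-!
MP_0fda35_co, piece BO-KER: expansion of products of kernels.
-/

set_option autoImplicit false

namespace Pool.Agent.R339.Bohr

open Finset Pool.Agent.R161.Bohr
open scoped ComplexConjugate

universe u

/-- coefficients of the kernel -/
noncomputable def wk (p k : ℕ) : ℝ := ((2 * p).choose k : ℝ) / 4 ^ p

theorem wk_nonneg (p k : ℕ) : 0 ≤ wk p k := by unfold wk; positivity

theorem wk_sum (p : ℕ) : ∑ k : Fin (2 * p + 1), wk p k = 1 := by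
  unfold wk
  rw [← Finset.sum_div, Fin.sum_univ_eq_sum_range (fun k => ((2 * p).choose k : ℝ)) (2 * p + 1)]
  have h := Nat.sum_range_choose (2 * p)
  have h2 : (∑ k ∈ range (2 * p + 1), ((2 * p).choose k : ℝ)) = 4 ^ p := by
    rw [← Nat.cast_sum, h, pow_mul]
    norm_num
  rw [h2, div_self (by positivity)]

theorem wk_mid (p : ℕ) : 1 / (2 * (p : ℝ) + 1) ≤ wk p p := by
  unfold wk
  rw [div_le_div_iff₀ (by positivity) (by positivity), one_mul]
  rcases Nat.eq_zero_or_pos p with h | h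
  · subst h
    norm_num
  · have h1 := Nat.four_pow_le_two_mul_self_mul_centralBinom p h
    have h2 : (4 : ℝ) ^ p ≤ 2 * p * (p.centralBinom : ℝ) := by exact_mod_cast h1
    rw [Nat.centralBinom_eq_two_mul_choose] at h2
    have h3 : (0 : ℝ) ≤ ((2 * p).choose p : ℝ) := by positivity
    nlinarith

theorem kp_eq (p : ℕ) (z : Circle) : ((kp p z : ℝ) : ℂ) =
    ∑ k : Fin (2 * p + 1), (wk p k : ℂ) * (((z ^ (k : ℕ) * (z⁻¹) ^ p : Circle)) : ℂ) := by
  have h0 : (z : ℂ) ≠ 0 := Circle.coe_ne_zero z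
  have h1 : ((‖(1 : ℂ) + (z : ℂ)‖ ^ 2 : ℝ) : ℂ) = (1 + (z : ℂ)) ^ 2 * (z : ℂ)⁻¹ := by
    have h2 := Complex.mul_conj' ((1 : ℂ) + (z : ℂ))
    rw [map_add, map_one, ← Circle.coe_inv_eq_conj, Circle.coe_inv] at h2
    push_cast
    rw [← h2]
    field_simp
    ring
  have h3 : ((kp p z : ℝ) : ℂ) = (1 + (z : ℂ)) ^ (2 * p) * ((z : ℂ)⁻¹) ^ p / 4 ^ p := by
    unfold kp
    rw [Complex.ofReal_pow, Complex.ofReal_div, h1, div_pow, mul_pow, ← pow_mul]
    norm_num
  rw [h3, add_comm (1 : ℂ), add_pow, Finset.sum_mul, Finset.sum_div,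
    ← Fin.sum_univ_eq_sum_range (fun k => (z : ℂ) ^ k * 1 ^ (2 * p - k) * ((2 * p).choose k : ℂ) *
      ((z : ℂ)⁻¹) ^ p / 4 ^ p) (2 * p + 1)]
  refine Finset.sum_congr rfl fun k _ => ?_
  unfold wk
  rw [Circle.coe_mul, Circle.coe_pow, Circle.coe_pow, Circle.coe_inv]
  push_cast
  rw [one_pow]
  ring

theorem s_ker : S_ker.{u} := by
  classical
  intro X _ ι _ ω p
  refine ⟨ι → Fin (2 * p + 1), inferInstance, fun r => ∏ i, wk p (r i),
    fun r => ∏ i, ((ω i) ^ (r i : ℕ) * ((ω i)⁻¹) ^ p), fun _ => ⟨p, by omega⟩, ?_, ?_, ?_, ?_, ?_, ?_⟩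
  · intro r
    exact Finset.prod_nonneg fun i _ => wk_nonneg _ _
  · have h := (Finset.prod_univ_sum (fun _ : ι => (univ : Finset (Fin (2 * p + 1))))
      (fun _ k => wk p k)).symm
    rw [Fintype.piFinset_univ] at h
    rw [h]
    simp only [wk_sum, Finset.prod_const_one]
  · refine Finset.prod_eq_one fun i _ => ?_
    rw [← mul_pow, mul_inv_cancel, one_pow]
  · simp only [Finset.prod_const, Finset.card_univ]
    exact pow_le_pow_left₀ (by positivity) (wk_mid p) _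
  · rw [Fintype.card_fun, Fintype.card_fin]
  · intro x
    have h := (Finset.prod_univ_sum (fun _ : ι => (univ : Finset (Fin (2 * p + 1))))
      (fun i k => (wk p k : ℂ) * ((((ω i x) ^ (k : ℕ) * ((ω i x)⁻¹) ^ p : Circle)) : ℂ)))
    rw [Fintype.piFinset_univ] at h
    rw [Complex.ofReal_prod]
    simp only [kp_eq]
    rw [h]
    refine Finset.sum_congr rfl fun r _ => ?_
    rw [Finset.prod_mul_distrib, Complex.ofReal_prod]
    congr 1
    have h2 : (∏ i, ((ω i) ^ (r i : ℕ) * ((ω i)⁻¹) ^ p) : AddChar X Circle) x =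
        ∏ i, ((ω i x) ^ (r i : ℕ) * ((ω i x)⁻¹) ^ p) := by
      rw [AddChar.prod_apply]
      refine Finset.prod_congr rfl fun i _ => ?_
      rw [AddChar.mul_apply, AddChar.pow_apply, AddChar.pow_apply, AddChar.inv_apply']
    rw [h2]
    exact (map_prod Circle.coeHom (fun i => (ω i x) ^ (r i : ℕ) * ((ω i x)⁻¹) ^ p) univ).symm

end Pool.Agent.R339.Bohr
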