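import Mathlib
import Pool.Agent.R161.Bohr.Basic

/-!
MP_0fda35_co: uniform lower bound by pigeonholing the scales.
-/

set_option autoImplicit false

namespace Pool.Agent.R339.Bohr

open Finset Pool.Agent.R161.Bohr

universe u

theorem s_low : S_one.{u} → S_low.{u} := by
  classical
  intro H d N hd δ hδ hδ1
  obtain ⟨κ, hκ, H⟩ := H d N hd δ hδ hδ1
  have H' : ∀ ε : ℝ, ∃ ε' c : ℝ, 0 < ε → ε ≤ 1 → (0 < ε' ∧ ε' < ε ∧ 0 < c ∧
      ∀ (G : Type u) [AddCommGroup G] (m : St G), m.Inv →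
      ∀ (φ : Fin d → G →+ G) (M : St (Fin d → G)), IsSol m φ M → C42 m N M →
      ∀ f : G → ℝ, (∀ x, 0 ≤ f x ∧ f x ≤ 1) → δ ≤ m.re f →
        (∀ Λ : Finset (AddChar G Circle), (∀ ξ ∈ Λ, ε' ≤ ‖coef m (fun x => (f x : ℂ)) ξ‖ ∧
          ‖coef m (fun x => (f x : ℂ)) ξ‖ < ε) →
          ∑ ξ ∈ Λ, ‖coef m (fun x => (f x : ℂ)) ξ‖ ^ 2 ≤ κ) →
        c ≤ M.re (fun x => ∏ j, f (x j))) := by
    intro ε
    by_cases h : 0 < ε ∧ ε ≤ 1
    · obtain ⟨ε', c, h1⟩ := H ε h.1 h.2
      exact ⟨ε', c, fun _ _ => h1⟩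
    · exact ⟨0, 0, fun h1 h2 => absurd ⟨h1, h2⟩ h⟩
  choose e' c' hec using H'
  set E : ℕ → ℝ := fun n => e'^[n] 1 with hEdef
  have hE0 : E 0 = 1 := rfl
  have hEs : ∀ n, E (n + 1) = e' (E n) := fun n => Function.iterate_succ_apply' e' n 1
  have hE : ∀ n, 0 < E n ∧ E n ≤ 1 := by
    intro n
    induction n with
    | zero => rw [hE0]; exact ⟨one_pos, le_rfl⟩
    | succ n ih =>
      rw [hEs]
      obtain ⟨h1, h2, -⟩ := hec (E n) ih.1 ih.2
      exact ⟨h1, h2.le.trans ih.2⟩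
  have hanti : StrictAnti E := strictAnti_nat_of_succ_lt fun n => by
    rw [hEs]; exact (hec (E n) (hE n).1 (hE n).2).2.1
  obtain ⟨T, hT⟩ := exists_nat_gt (1 / κ)
  have hT0 : 0 < T := by
    have : (0 : ℝ) < T := lt_trans (by positivity) hT
    exact_mod_cast this
  have hTκ : 1 < T * κ := (div_lt_iff₀ hκ).1 hT
  have hne : (Finset.range T).Nonempty := ⟨0, Finset.mem_range.2 hT0⟩
  refine ⟨(Finset.range T).inf' hne (fun n => c' (E n)), ?_, ?_⟩
  · refine (Finset.lt_inf'_iff hne).2 ?_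
    intro n _
    exact (hec (E n) (hE n).1 (hE n).2).2.2.1
  · intro G _ m hm φ M hM hC f hf hδf
    by_contra hcon
    push Not at hcon
    have hlt : ∀ n ∈ Finset.range T, M.re (fun x => ∏ j, f (x j)) < c' (E n) := by
      intro n hn
      exact lt_of_lt_of_le hcon (Finset.inf'_le _ hn)
    have hex : ∀ n : ℕ, ∃ Λ : Finset (AddChar G Circle), n < T →
        ((∀ ξ ∈ Λ, E (n + 1) ≤ ‖coef m (fun x => (f x : ℂ)) ξ‖ ∧
          ‖coef m (fun x => (f x : ℂ)) ξ‖ < E n) ∧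
          κ < ∑ ξ ∈ Λ, ‖coef m (fun x => (f x : ℂ)) ξ‖ ^ 2) := by
      intro n
      by_cases hn : n < T
      · by_contra hno
        push Not at hno
        have h1 := hlt n (Finset.mem_range.2 hn)
        refine absurd ((hec (E n) (hE n).1 (hE n).2).2.2.2 G m hm φ M hM hC f hf hδf ?_)
          (not_le.2 h1)
        intro Λ hΛ
        rw [← hEs] at hΛ
        exact (hno Λ).2 hΛ
      · exact ⟨∅, fun h => absurd h hn⟩
    choose Λ hΛ using hex
    have hdisj : ((Finset.range T : Finset ℕ) : Set ℕ).PairwiseDisjoint Λ := by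
      have key : ∀ a b : ℕ, a < T → b < T → a < b → Disjoint (Λ a) (Λ b) := by
        intro a b ha hb hab
        rw [Finset.disjoint_left]
        intro ξ h1 h2
        have h3 := ((hΛ a ha).1 ξ h1).1
        have h4 := ((hΛ b hb).1 ξ h2).2
        have h5 : E b ≤ E (a + 1) := hanti.antitone hab
        linarith
      intro a ha b hb hab
      have ha' : a < T := Finset.mem_range.1 ha
      have hb' : b < T := Finset.mem_range.1 hb
      rcases lt_or_gt_of_ne hab with h | h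
      · exact key a b ha' hb' h
      · exact (key b a hb' ha' h).symm
    have hb := bessel hm (BddR.of_mem hf).ofReal ((Finset.range T).biUnion Λ)
    rw [Finset.sum_biUnion hdisj] at hb
    have h1 : (T : ℝ) * κ ≤ ∑ n ∈ Finset.range T,
        ∑ ξ ∈ Λ n, ‖coef m (fun x => (f x : ℂ)) ξ‖ ^ 2 := by
      calc (T : ℝ) * κ = ∑ _n ∈ Finset.range T, κ := by simp
        _ ≤ _ := Finset.sum_le_sum fun n hn => ((hΛ n (Finset.mem_range.1 hn)).2).le
    have h2 : m.n2 (fun x => (f x : ℂ)) ≤ 1 ^ 2 := m.n2_le_of fun x => by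
      rw [Complex.norm_real, Real.norm_eq_abs, abs_of_nonneg (hf x).1]
      exact (hf x).2
    linarith

end Pool.Agent.R339.Bohr
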